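import Mathlib

/-!
Chain minors of finite posets.
-/

namespace Pool.Agent.H38.Chm

/-- `P` is a chain minor of `Q` (both given by their strict orders): some map from `Q` to `P`
sends, for every chain `c₁ < ⋯ < cₘ` of `P`, a chain `c₁' < ⋯ < cₘ'` of `Q` onto it term by term. -/
def ChainMinor {A B : Type} (P : A → A → Prop) (Q : B → B → Prop) : Prop :=
  ∃ f : B → A, ∀ c : List A, c.IsChain P → ∃ c' : List B, c'.IsChain Q ∧ c'.map f = c

/-- The relation on `Fin n` given by a list of pairs. -/
def relOf (p : ℕ × List (ℕ × ℕ)) (u v : Fin p.1) : Prop := (u.val, v.val) ∈ p.2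

/-- Both relations are strict partial orders and the first poset is a chain minor of the second. -/
def CM (p : (ℕ × List (ℕ × ℕ)) × ℕ × List (ℕ × ℕ)) : Prop :=
  IsStrictOrder _ (relOf p.1) ∧ IsStrictOrder _ (relOf p.2) ∧ ChainMinor (relOf p.1) (relOf p.2)

end Pool.Agent.H38.Chm
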