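import Pool.Agent.H38.Chm.Defs
import Pool.Agent.H38.NP.Clos
import Pool.Agent.H36.Gr

/-!
The chain minor problem is hard for the second level of the polynomial hierarchy.
-/

namespace Pool.Agent.H38.Chm

open Pool.Agent.H38.NP Pool.Agent.H36.Sig2 Pool.Agent.H36.Gr

section
variable {A B : Type} [Inhabited A] [Inhabited B] {U : List A} {V : List B}

theorem rel_mk {r : A → A → Bool} {u v : Fin U.length} :
    relOf (mkG U r) u v ↔ r (code U u) (code U v) = true := by
  simp [relOf, mkG, mem_edgesOf, code]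

theorem so_mk {r : A → A → Bool} (h1 : ∀ x, r x x = false)
    (h2 : ∀ x y z, r x y = true → r y z = true → r x z = true) : IsStrictOrder _ (relOf (mkG U r)) :=
  { irrefl := fun a h => by simpa [h1] using rel_mk.1 h
    trans := fun a b c h h' => rel_mk.2 (h2 _ _ _ (rel_mk.1 h) (rel_mk.1 h')) }

theorem lift_list {c : List A} (h : ∀ x ∈ c, x ∈ U) : ∃ d : List (Fin U.length), d.map (code U) = c := by
  induction c with
  | nil => exact ⟨[], rfl⟩
  | cons a c ih =>
    obtain ⟨d, hd⟩ := ih fun x hx => h x (List.mem_cons_of_mem _ hx)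
    obtain ⟨v, hv⟩ := code_surj (h a List.mem_cons_self)
    exact ⟨v :: d, by simp [hv, hd]⟩

theorem chain_mk {r : A → A → Bool} {d : List (Fin U.length)} :
    d.IsChain (relOf (mkG U r)) ↔ (d.map (code U)).IsChain fun x y => r x y = true := by
  rw [List.isChain_map]; exact List.IsChain.iff fun _ _ => rel_mk

theorem cm_mk (hU : U.Nodup) (hV : V.Nodup) (r : A → A → Bool) (s : B → B → Bool) :
    ChainMinor (relOf (mkG U r)) (relOf (mkG V s)) ↔ ∃ f : B → A, (∀ y ∈ V, f y ∈ U) ∧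
      ∀ c : List A, (∀ x ∈ c, x ∈ U) → c.IsChain (fun x y => r x y = true) →
        ∃ c' : List B, (∀ y ∈ c', y ∈ V) ∧ c'.IsChain (fun x y => s x y = true) ∧ c'.map f = c := by
  constructor
  · rintro ⟨f, hf⟩
    have hx := fun u => (code_inj hV).extend_apply (code U ∘ f) (fun _ => default) u
    refine ⟨(code V).extend (code U ∘ f) fun _ => default, fun y hy => ?_, fun c hc h => ?_⟩
    · obtain ⟨v, rfl⟩ := code_surj hy; rw [hx]; exact code_mem _ _
    · obtain ⟨d, rfl⟩ := lift_list hc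
      obtain ⟨d', h1, rfl⟩ := hf d (chain_mk.2 h)
      exact ⟨d'.map (code V), by simp [code_mem], chain_mk.1 h1, by
        erw [List.map_map, List.map_map]; exact List.map_congr_left fun u _ => hx u⟩
  · rintro ⟨f, h1, h2⟩
    choose g hg using fun v => code_surj (h1 _ (code_mem V v))
    refine ⟨g, fun d hd => ?_⟩
    obtain ⟨c', h3, h4, h5⟩ := h2 _ (by simp [code_mem]) (chain_mk.1 hd)
    obtain ⟨d', rfl⟩ := lift_list h3
    refine ⟨d', chain_mk.2 h4, List.map_injective_iff.2 (code_inj hU) ?_⟩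
    rw [← h5]; erw [List.map_map, List.map_map]; exact List.map_congr_left fun u _ => hg u
end

abbrev T4 := ℕ × ℕ × ℕ × ℕ

def VP (N M : ℕ) (x : T4) : Prop := x.1 < N ∧ x.2.1 < 2 ∧ x.2.2.1 < 3 ∧ x.2.2.2 < M ∧
  (x.2.2.2 = 0 ∨ x.2.2.1 = 2 * x.2.1)

instance (N M x) : Decidable (VP N M x) := by unfold VP; infer_instance

def box (N M : ℕ) : List T4 :=
  (List.range N).product ((List.range 2).product ((List.range 3).product (List.range M)))

theorem mem_box {N M} {x : T4} :
    x ∈ box N M ↔ x.1 < N ∧ x.2.1 < 2 ∧ x.2.2.1 < 3 ∧ x.2.2.2 < M := by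
  obtain ⟨a, b, c, d⟩ := x; simp [box]

theorem nodup_box (N M) : (box N M).Nodup :=
  List.nodup_range.product (List.nodup_range.product (List.nodup_range.product List.nodup_range))

def ltP (x y : T4) : Bool :=
  decide (x.1 < y.1 ∨ (x.1 = y.1 ∧ x.2.1 = y.2.1 ∧ x.2.2.1 < y.2.2.1))

def ltQ (x y : ℕ × T4) : Bool := decide (x.1 = y.1) && ltP x.2 y.2

def VQ (n : ℕ) (χ : CNF ℕ) (y : ℕ × T4) : Bool :=
  if y.1 < n ∧ y.2.1 = y.1 then decide (y.2.2.1 = 0 ∧ (y.2.2.2.2 = 0 ∨ y.2.2.2.1 ≠ 1))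
  else decide (y.2.2.2.2 = 0 ∨ y.2.2.2.1 = 2 * y.2.2.1) &&
    (decide (y.1 < n) || !(χ.getD (y.1 - n) []).contains (y.2.1, decide (y.2.2.1 = 1)))

def UP (N M : ℕ) : List T4 := (box N M).filter fun x => decide (VP N M x)

def UQ (n : ℕ) (χ : CNF ℕ) (N M : ℕ) : List (ℕ × T4) :=
  ((List.range (n + χ.length)).product (box N M)).filter (VQ n χ)

theorem mem_UP {N M x} : x ∈ UP N M ↔ VP N M x := by
  simp only [UP, List.mem_filter, mem_box, decide_eq_true_eq, VP]; tauto

theorem mem_UQ {n χ N M} {y : ℕ × T4} : y ∈ UQ n χ N M ↔ (y.1 < n + χ.length ∧ y.2.1 < N ∧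
    y.2.2.1 < 2 ∧ y.2.2.2.1 < 3 ∧ y.2.2.2.2 < M) ∧ VQ n χ y = true := by
  obtain ⟨j, x⟩ := y; simp [UQ, mem_box]

theorem complete {n χ N M} (h : Q2 (n, χ)) : ∃ f : ℕ × T4 → T4,
    (∀ y ∈ UQ n χ N M, f y ∈ UP N M) ∧ ∀ c : List T4, (∀ x ∈ c, x ∈ UP N M) →
      c.IsChain (fun x y => ltP x y = true) → ∃ c' : List (ℕ × T4), (∀ y ∈ c', y ∈ UQ n χ N M) ∧
        c'.IsChain (fun x y => ltQ x y = true) ∧ c'.map f = c := by
  classical
  obtain ⟨α, h⟩ := h
  refine ⟨fun y => if y.1 < n ∧ y.2.1 = y.1 then (y.2.1, (!α y.1).toNat, y.2.2.2.1,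
    if y.2.2.2.1 = 2 * (!α y.1).toNat then y.2.2.2.2 else 0) else y.2, ?_, fun c hc hch => ?_⟩
  · rintro ⟨j, i, s, t, k⟩ hy
    obtain ⟨h1, h2⟩ := mem_UQ.1 hy
    have := Bool.toNat_lt (!α j)
    simp only [mem_UP, VP, VQ] at h1 h2 ⊢
    split_ifs at h2 ⊢ <;> simp at h2 ⊢ <;> omega
  have : Trans (fun x y => ltP x y = true) (fun x y => ltP x y = true) (fun x y => ltP x y = true) :=
    ⟨fun h1 h2 => by simp only [ltP, decide_eq_true_eq] at *; omega⟩
  have pw := List.isChain_iff_pairwise.1 hch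
  let a : ℕ → Bool := fun i => decide (∃ x ∈ c, x.1 = i ∧ x.2.1 = 1)
  have ha : ∀ x ∈ c, x.2.1 = (a x.1).toNat := fun x hx => by
    have h1 := (mem_UP.1 (hc x hx)).2.1
    by_cases e : x.2.1 = 1
    · rw [show a x.1 = true from decide_eq_true ⟨x, hx, rfl, e⟩, e]; rfl
    · rw [show a x.1 = false from decide_eq_false ?_]
      · simp; omega
      rintro ⟨y, hy, h2, h3⟩
      have : Std.Symm fun a b => ltP a b = true ∨ ltP b a = true := ⟨fun _ _ => Or.symm⟩
      have := (pw.imp fun {a b} h => (Or.inl h : ltP a b = true ∨ ltP b a = true)).forall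
        hx hy (by rintro rfl; exact e h3)
      simp only [ltP, decide_eq_true_eq] at this; omega
  have : ∃ j < n + χ.length, (j < n → a j ≠ α j) ∧
      (n ≤ j → ∀ i, (i, a i) ∉ χ.getD (j - n) []) := by
    by_contra hn
    push Not at hn
    refine h ⟨a, fun i hi => by_contra fun e => ?_, fun C hC => ?_⟩
    · have := (hn i (by simp at hi; omega) fun _ => e).1; simp at hi; omega
    · obtain ⟨j, hj, rfl⟩ := List.getElem_of_mem hC
      obtain ⟨-, i, hi⟩ := hn (n + j) (by simp at hj; omega) (by omega)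
      exact ⟨(i, a i), by simpa [hj] using hi, rfl⟩
  obtain ⟨j, hj, j1, j2⟩ := this
  refine ⟨c.map fun x => (j, x.1, if j < n ∧ x.1 = j then 0 else x.2.1, x.2.2), ?_, ?_, ?_⟩
  · intro y hy
    obtain ⟨⟨i, s, t, k⟩, hx, rfl⟩ := List.mem_map.1 hy
    have h1 := mem_UP.1 (hc _ hx)
    have h2 := ha _ hx
    simp only [mem_UQ, VP, VQ] at h1 h2 ⊢
    split_ifs with e
    · simp; omega
    · have : j < n ∨ (i, decide (s = 1)) ∉ χ.getD (j - n) [] := by
        by_cases e : j < n
        · exact .inl e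
        · right; convert j2 (by omega) i; rw [h2]; cases a i <;> rfl
      simpa [h1, hj] using this
  · rw [List.isChain_map]
    refine hch.imp fun x y h => ?_
    simp only [ltQ, ltP, decide_eq_true_eq, Bool.and_eq_true, true_and] at h ⊢
    split_ifs <;> omega
  · rw [List.map_map]
    conv_rhs => rw [← List.map_id c]
    refine List.map_congr_left fun ⟨i, s, t, k⟩ hx => ?_
    have h1 := mem_UP.1 (hc _ hx)
    have h2 := ha _ hx
    simp only [VP, Function.comp, id] at h1 h2 ⊢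
    by_cases e : j < n ∧ i = j
    · obtain ⟨e, rfl⟩ := e
      have : (!α i).toNat = s := by rw [h2]; have := j1 e; revert this; cases a i <;> cases α i <;> simp
      simp [e, this]; omega
    · simp [e]

theorem avoid (T : ℕ) (g : ℕ → ℕ) : ∃ k < T + 1, ∀ j < T, g j ≠ k := by
  obtain ⟨k, hk, h⟩ := Finset.exists_mem_notMem_of_card_lt_card (s := (Finset.range T).image g)
    (t := Finset.range (T + 1)) (Finset.card_image_le.trans_lt (by simp))
  exact ⟨k, by simpa using hk, by simpa using h⟩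

theorem sound {n χ N} (hn : n < N) (hN : ∀ C ∈ χ, ∀ l ∈ C, l.1 < N) (f : ℕ × T4 → T4)
    (h : ∀ c : List T4, (∀ x ∈ c, x ∈ UP N (n + χ.length + 1)) →
      c.IsChain (fun x y => ltP x y = true) → ∃ c' : List (ℕ × T4),
        (∀ y ∈ c', y ∈ UQ n χ N (n + χ.length + 1)) ∧
        c'.IsChain (fun x y => ltQ x y = true) ∧ c'.map f = c) : Q2 (n, χ) := by
  refine ⟨fun i => decide ((f (i, i, 0, 1, 0)).2.1 = 0), fun ⟨a, h1, h2⟩ => ?_⟩
  choose κ k1 k2 using fun i s => avoid (n + χ.length) fun j => (f (j, i, 1 - s, 2 * s, 0)).2.2.2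
  have b := fun i => Bool.toNat_lt (a i)
  let w : ℕ → T4 := fun q => (q / 3, (a (q / 3)).toNat, q % 3,
    if q % 3 = 2 * (a (q / 3)).toNat then κ (q / 3) (a (q / 3)).toNat else 0)
  obtain ⟨cc, c1, c2, c3⟩ := h ((List.range (3 * N)).map w) (by
    simp only [List.mem_map, List.mem_range, mem_UP, VP]
    rintro _ ⟨q, hq, rfl⟩
    have := b (q / 3); have := k1 (q / 3) (a (q / 3)).toNat
    simp only [w]; split_ifs <;> omega) (by
    rw [List.isChain_map, List.isChain_iff_getElem]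
    intro q hq
    simp only [List.getElem_range, ltP, w, decide_eq_true_eq]
    by_cases e : (q + 1) / 3 = q / 3
    · rw [e]; omega
    · omega)
  have hl : cc.length = 3 * N := by simpa using congrArg List.length c3
  let g : ℕ → ℕ × T4 := fun q => cc.getD q default
  have g1 : ∀ q < 3 * N, g q ∈ UQ n χ N (n + χ.length + 1) ∧ f (g q) = w q := fun q hq => by
    have e : g q = cc[q]'(by omega) := List.getD_eq_getElem _ _ (by omega)
    refine ⟨e ▸ c1 _ (List.getElem_mem _), ?_⟩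
    have := List.getElem_of_eq c3 (i := q) (by simp; omega)
    simpa [e] using this
  have g2 : ∀ q, q + 1 < 3 * N → ltQ (g q) (g (q + 1)) = true := fun q hq => by
    have := List.isChain_iff_getElem.1 c2 q (by omega)
    simpa only [g, List.getD_eq_getElem cc _ (show q < cc.length by omega),
      List.getD_eq_getElem cc _ (show q + 1 < cc.length by omega)] using this
  clear_value g
  simp only [ltQ, ltP, Bool.and_eq_true, decide_eq_true_eq, mem_UQ] at g1 g2
  have lo : ∀ q < 3 * N, q ≤ 3 * (g q).2.1 + (g q).2.2.2.1 ∧ (g q).1 = (g 0).1 := fun q hq => by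
    induction q with
    | zero => simp
    | succ q ih => have := ih (by omega); have := g2 q hq; have := (g1 q (by omega)).1.1; omega
  have hi : ∀ d q, q + d + 1 = 3 * N → 3 * (g q).2.1 + (g q).2.2.2.1 ≤ q := fun d => by
    induction d with
    | zero => intro q hq; have := (g1 q (by omega)).1.1; omega
    | succ d ih =>
      intro q hq
      have := ih (q + 1) (by omega); have := g2 q (by omega); have := (g1 q (by omega)).1.1; omega
  have lv : ∀ q < 3 * N, (g q).2.1 = q / 3 ∧ (g q).2.2.2.1 = q % 3 := fun q hq => by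
    have := lo q hq; have := hi (3 * N - q - 1) q (by omega); have := (g1 q hq).1.1; omega
  have hj := (g1 0 (by omega)).1.1.1
  generalize (g 0).1 = j at lo hj
  by_cases e : j < n
  · obtain ⟨⟨-, h3⟩, h4⟩ := g1 (3 * j + 1) (by omega)
    have h5 := lv (3 * j + 1) (by omega)
    have h6 := (lo (3 * j + 1) (by omega)).2
    generalize g (3 * j + 1) = y at h3 h4 h5 h6
    obtain ⟨j', i, s, t, k⟩ := y
    obtain ⟨rfl, rfl, rfl⟩ : j' = j ∧ i = j ∧ t = 1 := by simp at h5 h6; omega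
    simp [VQ, e] at h3
    obtain ⟨rfl, rfl⟩ := h3
    have := h1 _ e
    simp only [h4, w, show (3 * i + 1) / 3 = i by omega] at this
    revert this; cases a i <;> simp
  · obtain ⟨l, hl, h3⟩ := h2 _ (List.getElem_mem (show j - n < χ.length by omega))
    have h4 := hN _ (List.getElem_mem _) l hl
    have := b l.1
    obtain ⟨⟨h5, h6⟩, h7⟩ := g1 (3 * l.1 + 2 * (a l.1).toNat) (by omega)
    have h8 := lv (3 * l.1 + 2 * (a l.1).toNat) (by omega)
    have h9 := (lo (3 * l.1 + 2 * (a l.1).toNat) (by omega)).2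
    generalize g (3 * l.1 + 2 * (a l.1).toNat) = y at h5 h6 h7 h8 h9
    obtain ⟨j', i, s, t, k⟩ := y
    obtain ⟨rfl, rfl, rfl⟩ : j' = j ∧ i = l.1 ∧ t = 2 * (a l.1).toNat := by simp at h8 h9; omega
    simp only [w, show (3 * l.1 + 2 * (a l.1).toNat) / 3 = l.1 by omega,
      show (3 * l.1 + 2 * (a l.1).toNat) % 3 = 2 * (a l.1).toNat by omega, if_true] at h7
    simp [VQ, e, List.getElem?_eq_getElem (show j' - n < χ.length by omega)] at h5 h6
    by_cases e' : s = (a l.1).toNat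
    · apply h6.2
      convert hl
      rw [e', ← h3]; cases a l.1 <;> rfl
    · obtain ⟨rfl, rfl⟩ : k = 0 ∧ s = 1 - (a l.1).toNat := by omega
      exact k2 _ _ _ hj (by rw [h7])

def nv (p : ℕ × CNF ℕ) : ℕ := p.1 + (p.2.flatten.map fun l => l.1).sum + 1

def inst (p : ℕ × CNF ℕ) : (ℕ × List (ℕ × ℕ)) × ℕ × List (ℕ × ℕ) :=
  (mkG (UP (nv p) (p.1 + p.2.length + 1)) ltP, mkG (UQ p.1 p.2 (nv p) (p.1 + p.2.length + 1)) ltQ)

theorem pt_inst : PT inst := by
  refine PT.mk (pt_mkG ?_ ?_) (pt_mkG ?_ ?_)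
  · unfold UP VP box nv; fun_prop
  · unfold ltP; fun_prop
  · unfold UQ VQ box nv; fun_prop
  · unfold ltQ ltP; fun_prop

theorem cm_s2h : S2H (fun _ => True) CM := by
  refine q2_s2h.reduce inst pt_inst fun ⟨n, χ⟩ _ => ⟨trivial, ?_⟩
  have h1 : ∀ x y z, ltP x y = true → ltP y z = true → ltP x z = true := fun x y z h1 h2 => by
    simp only [ltP, decide_eq_true_eq] at *; omega
  simp only [CM, inst]
  rw [cm_mk (U := UP _ _) (V := UQ _ _ _ _) ((nodup_box _ _).filter _)
    ((List.nodup_range.product (nodup_box _ _)).filter _)]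
  refine ⟨fun h => ⟨so_mk (by simp [ltP]) h1, so_mk (by simp [ltQ, ltP]) fun x y z a b => ?_,
    complete h⟩, fun ⟨_, _, f, _, h⟩ => sound (by simp [nv]) (fun C hC l hl => ?_) f h⟩
  · simp only [ltQ, Bool.and_eq_true, decide_eq_true_eq] at *
    exact ⟨a.1.trans b.1, h1 _ _ _ a.2 b.2⟩
  · exact Nat.lt_succ_of_le ((List.le_sum_of_mem (List.mem_map_of_mem
      (List.mem_flatten.2 ⟨C, hC, hl⟩))).trans (Nat.le_add_left _ _))

end Pool.Agent.H38.Chm
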